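import Pool.Agent.Lib.MP_1a91b9_ntH2.Q1C
import Pool.Agent.Lib.MP_1a91b9_ntH2.A.RatT
import Pool.Agent.Lib.MP_1a91b9_ntH2.C.PerG
import Pool.Agent.Lib.MP_1a91b9_ntH2.C.TamC
import Pool.Agent.Lib.MP_1a91b9_ntH.C.PerD
import Pool.Agent.Lib.MP_1a91b9_ntH.C.Main

/-!
# MP_1a91b9_nt (TwistDensity), phase 2: the assembly of Q2 for every odd residue class modulo 4

The 2-part of the formula for `y² = x³ + δ³`, `δ = dlc c S`, if the determinant of the matrix of the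
class `c` is not zero; the constants `kac c` of the classes `c ≠ 0` have `‖kac c‖ ^ 2 = 3 ‖ep‖ ^ 2` or
`√3 ‖ep‖ ^ 2`.
-/

set_option autoImplicit false

namespace Pool.Agent.Lib.MP_1a91b9_ntH2

open NumberField IsDedekindDomain Finset Pool.Agent.Lib.MP_1a91b9_ntT Pool.Agent.Lib.MP_1a91b9_ntH
open Pool.Agent.Lib.MP_1a91b9_ntH.C (cv HV tam_at_q s3_notMem_q)
open Pool.Agent.Lib.MP_1a91b9_ntT.S9 (tam)
open Pool.Agent.Lib.MP_1a91b9_ntT3.S9 (ShaP PPartQ)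

noncomputable section

private theorem q2C_a : Quarter_a ^ 3 = -1 / 4 := by
  have h := Quarter_a_eq
  linear_combination h / 4

private theorem q2C_zt : MP_1a91b9_ntT.zt ^ 2 + MP_1a91b9_ntT.zt + 1 = 0 := by
  have h1 := MP_1a91b9_ntT.zt_spec.pow_eq_one
  have h2 : (MP_1a91b9_ntT.zt - 1) * (MP_1a91b9_ntT.zt ^ 2 + MP_1a91b9_ntT.zt + 1) = 0 := by linear_combination h1
  exact (mul_eq_zero.1 h2).resolve_left (sub_ne_zero.2 (MP_1a91b9_ntT.zt_spec.ne_one (by norm_num)))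

private theorem q2C_zt3 : MP_1a91b9_ntT.zt ^ 3 = 1 := MP_1a91b9_ntT.zt_spec.pow_eq_one

private theorem q2C_ne : MP_1a91b9_ntT.zt ≠ 1 := MP_1a91b9_ntT.zt_spec.ne_one (by norm_num)

/-- The absolute value of the constant of the class `c`. -/
private theorem q2C_kac (c : F4) (hc : c ≠ 0) : ∃ ρ : ℝ, 0 < ρ ∧
    (∀ A : ValuationSubring ℂ, Two A → A.valuation (ρ : ℂ) = 1) ∧ ‖kac c‖ ^ 2 = ρ * ‖ep‖ ^ 2 := by
  have ha := q2C_a
  have ha0 := Quarter_a_ne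
  have h3 := q2C_zt3
  have hb : (MP_1a91b9_ntT.zt * Quarter_a) ^ 3 = -1 / 4 := by rw [mul_pow, h3, one_mul, ha]
  have hd : (MP_1a91b9_ntT.zt ^ 2 * Quarter_a) ^ 3 = -1 / 4 := by
    rw [mul_pow, ← pow_mul, mul_comm 2 3, pow_mul, h3, one_pow, one_mul, ha]
  have hsq := kac_sq c
  by_cases h1 : c = 1
  · refine ⟨3, by norm_num, fun A hA => val_three hA, ?_⟩
    refine norm_kap_one ep_cube ha ?_
    rw [hsq, kacs, if_pos h1]
  · refine ⟨√3, by positivity, fun A hA => val_sqrt3 hA, ?_⟩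
    by_cases h2 : c = ⟨0, 1⟩
    · refine norm_kap_two ep_cube hb ha hb (fun h => ?_) ?_
      · exact q2C_ne (mul_right_cancel₀ ha0 (by rw [h, one_mul]))
      · have hz : MP_1a91b9_ntT.zt * Quarter_a ≠ 0 := mul_ne_zero (MP_1a91b9_ntT.zt_spec.ne_zero (by norm_num)) ha0
        rw [hsq, kacs, if_neg h1, if_pos h2, mul_div_assoc, div_self hz, mul_one]
        ring
    · refine norm_kap_two ep_cube hd ha hd (fun h => ?_) ?_
      · have h4 : MP_1a91b9_ntT.zt ^ 2 = 1 := mul_right_cancel₀ ha0 (by rw [h, one_mul])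
        apply q2C_ne
        linear_combination h3 - MP_1a91b9_ntT.zt * h4
      · have hz : MP_1a91b9_ntT.zt ^ 2 * Quarter_a ≠ 0 :=
          mul_ne_zero (pow_ne_zero 2 (MP_1a91b9_ntT.zt_spec.ne_zero (by norm_num))) ha0
        rw [hsq, kacs, if_neg h1, if_neg h2, mul_div_assoc, div_self hz, mul_one]
        ring

private theorem q2C_if {c : F4} {S : Finset Pq} (x y : ℂ) [Decidable (s3 ∣ dlc c S)] :
    (if s3 ∣ dlc c S then x else y) = if (qd.A S + c).b = 0 then y else x := by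
  by_cases h : (qd.A S + c).b = 0
  · rw [if_pos h, if_neg fun h1 => (s3_dvd_dlc.1 h1) h]
  · rw [if_neg h, if_pos (s3_dvd_dlc.2 h)]

private theorem q2C_ifN {c : F4} {S : Finset Pq} (x y : ℕ) [Decidable (s3 ∣ dlc c S)] :
    (if s3 ∣ dlc c S then x else y) = if (qd.A S + c).b = 0 then y else x := by
  by_cases h : (qd.A S + c).b = 0
  · rw [if_pos h, if_neg fun h1 => (s3_dvd_dlc.1 h1) h]
  · rw [if_neg h, if_pos (s3_dvd_dlc.2 h)]

/-- **The 2-part of the formula**, for every class `c`. -/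
theorem ppartQ_c (c : F4) (S : Finset Pq) (h : ((tw c qd).M S).det ≠ 0) :
    PPartQ 2 (cv ((dlc c S : 𝓞 K) : K)) := by
  classical
  obtain ⟨hfin, m, hm, hcard⟩ := C.points_dlc c S h (W := cv ((dlc c S : 𝓞 K) : K)) rfl
  have hsha := C.sha_dlc c S h (W := cv ((dlc c S : 𝓞 K) : K)) rfl
  obtain ⟨t, ht, hT⟩ := C.finprod_tam_dlc c S
  by_cases hc : c = 0
  · subst hc
    rw [tw_zero] at h
    rw [dlc_zero] at hfin hcard hsha hT ⊢
    rw [add_zero] at hT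
    exact MP_1a91b9_ntH.C.ppartQ_main h hfin hm hcard ht hT hsha (crat S)
  · obtain ⟨g, hgd, hgs, hg⟩ := lser_mainc c S
    obtain ⟨ρ, hρ, hρA, hκ⟩ := q2C_kac c hc
    refine ppartQ_gen (δ := dlc c S) (r := S.card) (dlc_squarefree c S) (dlc_two c S) ep_cube hρ
      hρA hκ hgd hgs ?_ (fun A hA => nuc_unit hA hc h) (LSc_ne hc h) hfin hm hcard ht ?_ hsha
      (crat_c c S)
    · rw [q2C_if]
      exact hg
    · rw [q2C_ifN]
      exact hT

/-- The Tamagawa numbers at the places not above `3` which divide `δ`. -/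
theorem tam_c (c : F4) (S : Finset Pq) (v : HeightOneSpectrum (𝓞 K)) (hv : dlc c S ∈ v.asIdeal)
    (h3 : (3 : 𝓞 K) ∉ v.asIdeal) : tam (cv ((dlc c S : 𝓞 K) : K)) v = 4 := by
  have hs : s3 ∉ v.asIdeal := fun hs => h3 (Ideal.mem_of_dvd _ s3_dvd_three hs)
  have hHV : HV (dlc c S) S ((qd.A S + c).b = 0) := by
    intro w
    rw [C.val_dlc c w S]
    congr 1
    split_ifs <;> rfl
  have hDD : DD S ∈ v.asIdeal := by
    rw [dlc_eq] at hv
    rcases v.isPrime.mem_or_mem hv with h1 | h1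
    · exfalso
      rcases v.isPrime.mem_or_mem h1 with h2 | h2
      · unfold k1c at h2
        split_ifs at h2
        · exact v.isPrime.ne_top ((Ideal.eq_top_iff_one _).2 h2)
        · exact hs h2
      · exact v.isPrime.ne_top (Ideal.eq_top_of_isUnit_mem _ h2 (k2c_unit c S))
    · exact h1
  obtain ⟨q, hq, hqv⟩ : ∃ q ∈ S, q.1 ∈ v.asIdeal := by
    unfold DD at hDD
    exact (Ideal.IsPrime.prod_mem_iff (hp := v.isPrime)).1 hDD
  exact tam_at_q hHV hq hqv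

private theorem q2C_K (j : ℕ) (c : F4) (S : Finset Pq) (h : ((tw c qd).M S).det ≠ 0) :
    ∀ W : WeierstrassCurve K, W = ⟨0, 0, 0, 0, ((wO ^ j * dlc c S : 𝓞 K) : K) ^ 3⟩ →
      PPartQ 2 W ∧ Nat.card (ShaP 2 W) = 1 ∧
        ∀ v : HeightOneSpectrum (𝓞 K), wO ^ j * dlc c S ∈ v.asIdeal → (3 : 𝓞 K) ∉ v.asIdeal →
          tam W v = 4 := by
  intro W hW
  have e : W = cv ((dlc c S : 𝓞 K) : K) := by
    rw [hW, cv]
    congr 1
    have h1 := congrArg (fun y : 𝓞 K => (y : K)) (pow_w_mul_cube j (dlc c S))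
    simpa using h1
  subst e
  refine ⟨ppartQ_c c S h, C.sha_dlc c S h rfl, fun v hv h3 => tam_c c S v ?_ h3⟩
  rcases v.isPrime.mem_or_mem hv with h1 | h1
  · exact absurd (Ideal.eq_top_of_isUnit_mem _ h1 (isUnit_wO.pow j)) v.isPrime.ne_top
  · exact h1

/-- The density, in the class of `u` modulo `4`, of the `δ` with a property which holds for the
`w ^ j * dlc c S` with nonzero determinant. -/
theorem density_KP {u : 𝓞 K} (hu : ¬ (2 : 𝓞 K) ∣ u) (P : 𝓞 K → Prop)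
    (hP : ∀ (j : ℕ) (c : F4) (S : Finset Pq), ((tw c qd).M S).det ≠ 0 → P (wO ^ j * dlc c S))
    (ε : ℝ) (hε : 0 < ε) :
    ∀ᶠ X : ℝ in Filter.atTop, (∏' i : ℕ, (1 + 1 / (2 : ℝ) ^ (2 * i + 1))⁻¹) - ε ≤
      (Nat.card {δ : 𝓞 K // Squarefree δ ∧ 4 ∣ δ - u ∧ |Algebra.norm ℤ δ| ≤ X ∧ P δ} : ℝ) /
        (Nat.card {δ : 𝓞 K // Squarefree δ ∧ 4 ∣ δ - u ∧ |Algebra.norm ℤ δ| ≤ X} : ℝ) := by
  rw [cinf_form]
  refine density_ratioC hu (Da.cinf - ε / 2) (Da.cinf - ε) (by linarith) (fun c d η hη => ?_) P hP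
  obtain ⟨X₀, h⟩ := Db.density2 qd_OK c (show Da.cinf - ε / 2 < Da.cinf by linarith) η hη
  exact ⟨X₀, fun X hX => h X hX d⟩

theorem main_q2C (u : 𝓞 (CyclotomicField 3 ℚ)) (hu : ¬ 2 ∣ u) (ε : ℝ) (hε : 0 < ε) :
    ∀ᶠ X : ℝ in Filter.atTop,
    (∏' i : ℕ, (1 + 1 / (2 : ℝ) ^ (2 * i + 1))⁻¹) - ε ≤
      (Nat.card {δ : 𝓞 (CyclotomicField 3 ℚ) // Squarefree δ ∧ 4 ∣ δ - u ∧
        |Algebra.norm ℤ δ| ≤ X ∧
        ∀ W : WeierstrassCurve (CyclotomicField 3 ℚ), W = ⟨0, 0, 0, 0, (δ : CyclotomicField 3 ℚ) ^ 3⟩ →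
          PPartQ 2 W ∧ Nat.card (ShaP 2 W) = 1 ∧
          ∀ v : HeightOneSpectrum (𝓞 (CyclotomicField 3 ℚ)), δ ∈ v.asIdeal → 3 ∉ v.asIdeal →
            tam W v = 4} : ℝ) /
      (Nat.card {δ : 𝓞 (CyclotomicField 3 ℚ) // Squarefree δ ∧ 4 ∣ δ - u ∧
        |Algebra.norm ℤ δ| ≤ X} : ℝ) :=
  density_KP (u := u) hu (fun δ : 𝓞 K => ∀ W : WeierstrassCurve K,
    W = ⟨0, 0, 0, 0, ((δ : 𝓞 K) : K) ^ 3⟩ →
      PPartQ 2 W ∧ Nat.card (ShaP 2 W) = 1 ∧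
        ∀ v : HeightOneSpectrum (𝓞 K), δ ∈ v.asIdeal → (3 : 𝓞 K) ∉ v.asIdeal → tam W v = 4)
    q2C_K ε hε

end

end Pool.Agent.Lib.MP_1a91b9_ntH2
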