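import Pool.Agent.Lib.MP_1a91b9_ntH.Q1
import Pool.Agent.Lib.MP_1a91b9_ntH2.A.TopC
import Pool.Agent.Lib.MP_1a91b9_ntH2.C.MainC
import Pool.Agent.Lib.MP_1a91b9_ntH2.D.Momc
import Pool.Agent.Lib.MP_1a91b9_ntH2.R.DensityC

/-!
# MP_1a91b9_nt (TwistDensity), phase 2: the assembly of Q1 for every odd residue class modulo 4
-/

set_option autoImplicit false

namespace Pool.Agent.Lib.MP_1a91b9_ntH2

open NumberField IsDedekindDomain Finset Pool.Agent.Lib.MP_1a91b9_ntT Pool.Agent.Lib.MP_1a91b9_ntH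

private theorem q1C_cube (j : ℕ) (x : 𝓞 K) :
    ((wO ^ j * x : 𝓞 K) : K) ^ 3 = ((x : 𝓞 K) : K) ^ 3 := by
  have h : (wO ^ j * x) ^ 3 = x ^ 3 := by
    rw [mul_pow, ← pow_mul, mul_comm j 3, pow_mul]
    have h3 : wO ^ 3 = 1 := by linear_combination (wO - 1) * wO_quad
    rw [h3, one_pow, one_mul]
  have h1 := congrArg (fun y : 𝓞 K => (y : K)) h
  simpa using h1

/-- The density, in the class of `u` modulo `4`, of the twists with a property of `δ ^ 3` which holds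
for all `S` with nonzero determinant. -/
theorem density_KC {u : 𝓞 K} (hu : ¬ (2 : 𝓞 K) ∣ u) (P : K → Prop)
    (hP : ∀ (c : F4) (S : Finset Pq), ((tw c qd).M S).det ≠ 0 → P (((dlc c S : 𝓞 K) : K) ^ 3))
    (ε : ℝ) (hε : 0 < ε) :
    ∀ᶠ X : ℝ in Filter.atTop, (∏' i : ℕ, (1 + 1 / (2 : ℝ) ^ (2 * i + 1))⁻¹) - ε ≤
      (Nat.card {δ : 𝓞 K // Squarefree δ ∧ 4 ∣ δ - u ∧ |Algebra.norm ℤ δ| ≤ X ∧
        P ((δ : K) ^ 3)} : ℝ) /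
        (Nat.card {δ : 𝓞 K // Squarefree δ ∧ 4 ∣ δ - u ∧ |Algebra.norm ℤ δ| ≤ X} : ℝ) := by
  rw [cinf_form]
  refine density_ratioC hu (Da.cinf - ε / 2) (Da.cinf - ε) (by linarith) (fun c d η hη => ?_)
    (fun δ => P ((δ : K) ^ 3)) (fun j c S hS => ?_)
  · obtain ⟨X₀, h⟩ := Db.density2 qd_OK c (show Da.cinf - ε / 2 < Da.cinf by linarith) η hη
    exact ⟨X₀, fun X hX => h X hX d⟩
  · change P (((wO ^ j * dlc c S : 𝓞 K) : K) ^ 3)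
    rw [q1C_cube]
    exact hP c S hS

private theorem q1C_K (c : F4) (S : Finset Pq) (h : ((tw c qd).M S).det ≠ 0) :
    ∀ W : WeierstrassCurve K, W = ⟨0, 0, 0, 0, ((dlc c S : 𝓞 K) : K) ^ 3⟩ →
      (∃ g : ℂ → ℂ, Differentiable ℂ g ∧ (∀ s : ℂ, 3 / 2 < s.re → g s = W.LSeries s) ∧
        g 1 ≠ 0) ∧ Finite W.toAffine.Point := by
  rintro W rfl
  exact ⟨lvalue_mainc c S h, C.finite_dlc c S h rfl⟩

theorem main_q1C (u : 𝓞 (CyclotomicField 3 ℚ)) (hu : ¬ 2 ∣ u) (ε : ℝ) (hε : 0 < ε) :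
    ∀ᶠ X : ℝ in Filter.atTop,
    (∏' i : ℕ, (1 + 1 / (2 : ℝ) ^ (2 * i + 1))⁻¹) - ε ≤
      (Nat.card {δ : 𝓞 (CyclotomicField 3 ℚ) // Squarefree δ ∧ 4 ∣ δ - u ∧
        |Algebra.norm ℤ δ| ≤ X ∧
        ∀ W : WeierstrassCurve (CyclotomicField 3 ℚ), W = ⟨0, 0, 0, 0, (δ : CyclotomicField 3 ℚ) ^ 3⟩ →
          (∃ g : ℂ → ℂ, Differentiable ℂ g ∧ (∀ s : ℂ, 3 / 2 < s.re → g s = W.LSeries s) ∧
            g 1 ≠ 0) ∧ Finite W.toAffine.Point} : ℝ) /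
      (Nat.card {δ : 𝓞 (CyclotomicField 3 ℚ) // Squarefree δ ∧ 4 ∣ δ - u ∧
        |Algebra.norm ℤ δ| ≤ X} : ℝ) :=
  density_KC (u := u) hu (fun y : K => ∀ W : WeierstrassCurve K, W = ⟨0, 0, 0, 0, y⟩ →
      (∃ g : ℂ → ℂ, Differentiable ℂ g ∧ (∀ s : ℂ, 3 / 2 < s.re → g s = W.LSeries s) ∧
        g 1 ≠ 0) ∧ Finite W.toAffine.Point) q1C_K ε hε

end Pool.Agent.Lib.MP_1a91b9_ntH2
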